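import Mathlib
import Pool.Agent.K4H34.ST.Main
import Pool.Agent.K4H74.SC.Lead
import Pool.Agent.K4H74.SC.Wrap
import Pool.Agent.K4H77.SL.Lin
import Pool.Agent.K4H77.SL.Def

/-!
# Stark's conjecture up to roots of unity follows from the case of the unramified cyclic extensions
of the totally complex fields

The other definitions are in `Pool.Agent.K4H74.SC.Core` and `Pool.Agent.K4H77.SL.Def`; `S` is the
set of the infinite places. The formal properties of `A(χ, φ)` and the convergence of the Artin
L-series are proved.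
-/

set_option autoImplicit false

namespace Pool.Agent.K4H34.Old.UnramifiedReduction

open NumberField Pool.Agent.K4H74 Pool.Agent.K4H74.SK Pool.Agent.K4H77

/-- The decomposition group of the ideal `P` of the integers of `L`. -/
def decompGroup {E : Ext} (P : Ideal (𝓞 E.L)) : Set (G E) :=
  {g | ∀ x y : 𝓞 E.L, (y : E.L) = emb g x → (y ∈ P ↔ x ∈ P)}

/-- The inertia group of the ideal `P` of the integers of `L`. -/
def inertiaGroup {E : Ext} (P : Ideal (𝓞 E.L)) : Set (G E) :=
  {g | ∀ x y : 𝓞 E.L, (y : E.L) = emb g x → y - x ∈ P}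

/-- `L / K` is unramified at all finite primes, and the primes above `m` split completely. -/
def UnramifiedSplit (m : ℕ) (E : Ext) : Prop :=
  ∀ P : Ideal (𝓞 E.L), P.IsMaximal → (∀ g ∈ inertiaGroup P, g = 1) ∧
    ((m : 𝓞 E.L) ∈ P → ∀ g ∈ decompGroup P, g = 1)

lemma mem_decomp {E : Ext} {P : Ideal (𝓞 E.L)} (g : G E) :
    g ∈ decompGroup P ↔ (show E.L ≃ₐ[E.K] E.L from g) ∈ SL.decomp E.K P := by
  constructor
  · intro h x
    exact h x _ rfl
  · intro h x y hy
    have h1 : y = SL.gi (show E.L ≃ₐ[E.K] E.L from g) x := RingOfIntegers.ext hy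
    rw [h1]
    exact h x

lemma mem_inertia {E : Ext} {P : Ideal (𝓞 E.L)} (g : G E) :
    g ∈ inertiaGroup P ↔ (show E.L ≃ₐ[E.K] E.L from g) ∈ SL.inertia E.K P := by
  constructor
  · intro h x
    exact h x _ rfl
  · intro h x y hy
    have h1 : y = SL.gi (show E.L ≃ₐ[E.K] E.L from g) x := RingOfIntegers.ext hy
    rw [h1]
    exact h x

/-- The linear character `ψ` takes the value `-1` at all complex conjugations. -/
def TotallyOdd {E : Ext} (ψ : G E →* ℂˣ) : Prop := ∀ t : G E, IsCC t → ψ t = -1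

/-- The defects of the trivial characters and of the totally odd linear characters of the
extensions of the totally real fields. They are known to be `1` (the class number formula and
Siegel's theorem). -/
def knownDefects (c : Pair → ℂ) (σ : ℂ ≃+* ℂ) : Set ℂˣ :=
  {d | (∃ E : Ext, IsDefect c σ (E := E) (fun _ => 1) d) ∨
    ∃ E : Ext, IsTotallyReal E.K ∧ ∃ ψ : G E →* ℂˣ, TotallyOdd ψ ∧ IsDefect c σ (lin ψ) d}

/-- The defects of the faithful linear characters of the (cyclic) extensions `L / K`, `K` totally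
complex, which are unramified at all finite primes and in which the primes above `m` split
completely. -/
def unramifiedDefects (c : Pair → ℂ) (σ : ℂ ≃+* ℂ) (m : ℕ) : Set ℂˣ :=
  {d | ∃ E : Ext, IsTotallyComplex E.K ∧ UnramifiedSplit m E ∧ ∃ ψ : G E →* ℂˣ,
    Function.Injective ψ ∧ IsDefect c σ (lin ψ) d}

/-- Let `c` be a system of leading coefficients at `s = 0` of the Artin L-functions (such systems
exist; by Brauer's theorem on the meromorphic continuation, the only one is `L*(0, χ)`), and let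
`σ` be an automorphism of `ℂ`. Every character `χ` has exactly one defect `d(χ)`, a nonzero number
with `A(χ, φ)^σ = d(χ) A(χ^σ, φ)` for all `φ`; Stark's conjecture says that `d(χ) = 1`.

Let `m ≥ 1`. For every character `χ` of every Galois extension of number fields some power
`d(χ)^n`, `n ≥ 1`, lies in the group generated by the known defects and by the defects of the
faithful linear characters of the unramified extensions `L / K`, `K` totally complex, in which the
primes above `m` split completely. So all the defects are roots of unity if and only if the known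
defects and these defects are. -/
theorem result : (∃ c : Pair → ℂ, IsLeading c) ∧ ∀ c : Pair → ℂ, IsLeading c →
    ∀ σ : ℂ ≃+* ℂ,
    -- the defect
    (∀ (E : Ext) (χ : G E → ℂ), IsChr χ → ∃! d : ℂˣ, IsDefect c σ χ d) ∧
    ∀ m : ℕ, m ≠ 0 →
      -- up to torsion it is in the group generated by the known and the unramified defects
      (∀ (E : Ext) (χ : G E → ℂ), IsChr χ → ∀ d : ℂˣ, IsDefect c σ χ d →
        ∃ n : ℕ, 0 < n ∧ d ^ n ∈ Subgroup.closure (knownDefects c σ ∪ unramifiedDefects c σ m)) ∧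
      -- Stark's conjecture up to roots of unity
      ((∀ (E : Ext) (χ : G E → ℂ), IsChr χ → ∀ d : ℂˣ, IsDefect c σ χ d → IsOfFinOrder d) ↔
        (∀ d ∈ knownDefects c σ, IsOfFinOrder d) ∧
        ∀ d ∈ unramifiedDefects c σ m, IsOfFinOrder d) := by
  have hlin1 : ∀ E : Ext, IsChr (fun _ : G E => (1 : ℂ)) := by
    intro E
    have h1 := isChr_lin (E := E) 1
    have h2 : lin (1 : G E →* ℂˣ) = fun _ => 1 := by
      funext g
      simp [lin]
    rwa [h2] at h1
  refine ⟨exists_isLeading, fun c hc σ => ⟨fun E χ hχ => existsUnique_defect hc σ hχ,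
    fun m hm => ?_⟩⟩
  have hmain : ∀ (E : Ext) (χ : G E → ℂ), IsChr χ → ∀ d : ℂˣ, IsDefect c σ χ d →
      ∃ n : ℕ, 0 < n ∧
        d ^ n ∈ Subgroup.closure (knownDefects c σ ∪ unramifiedDefects c σ m) := by
    intro E χ hχ d hd
    have h1 : ST.TrivOne (invMod hc σ (knownDefects c σ ∪ unramifiedDefects c σ m)) := by
      intro K _ _
      exact invMod_one hc σ _ (E := ⟨K, K⟩) (hlin1 ⟨K, K⟩)
        (fun d hd => Or.inl (Or.inl ⟨⟨K, K⟩, hd⟩))
    have h2 : SL.TrivSplit (invMod hc σ (knownDefects c σ ∪ unramifiedDefects c σ m)) m := by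
      apply SL.trivSplit_of_lin
      intro K L _ _ _ _ _ _ hK hin hde ψ hψ
      refine invMod_one hc σ _ (E := ⟨K, L⟩) (isChr_lin (E := ⟨K, L⟩) ψ)
        (fun d hd => Or.inr ⟨⟨K, L⟩, hK, ?_, ψ, hψ, hd⟩)
      intro P hP
      exact ⟨fun g hg => hin P hP g ((mem_inertia (E := ⟨K, L⟩) g).mp hg),
        fun hm g hg => hde P hP hm g ((mem_decomp (E := ⟨K, L⟩) g).mp hg)⟩
    have h3 : ST.TrivOdd (invMod hc σ (knownDefects c σ ∪ unramifiedDefects c σ m)) := by
      intro K L _ _ _ _ _ _ hK ψ hψ
      refine invMod_one hc σ _ (E := ⟨K, L⟩) (isChr_lin (E := ⟨K, L⟩) ψ)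
        (fun d hd => Or.inl (Or.inr ⟨⟨K, L⟩, hK, ψ, ?_, hd⟩))
      rintro t ⟨φ, hφ⟩
      refine hψ φ t ?_
      ext x
      exact (hφ x).symm
    have h4 := Pool.Agent.K4H34.ST.main hm h1 h3 h2 E.K E.L (isChr_iff.mp hχ)
    obtain ⟨n, hn, h5⟩ := isOfFinOrder_iff_pow_eq_one.mp h4
    refine ⟨n, hn, ?_⟩
    have h6 : (invMod hc σ (knownDefects c σ ∪ unramifiedDefects c σ m)).val E.K E.L χ =
        QuotientGroup.mk'
          (Subgroup.closure (knownDefects c σ ∪ unramifiedDefects c σ m)) d := by
      rw [← (isDefect_iff hc σ hχ).mp hd]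
      rfl
    rw [h6, ← map_pow] at h5
    exact (QuotientGroup.eq_one_iff _).mp h5
  refine ⟨hmain, fun h => ⟨?_, ?_⟩, ?_⟩
  · rintro d (⟨E, hd⟩ | ⟨E, -, ψ, -, hd⟩)
    · exact h E _ (hlin1 E) d hd
    · exact h E _ (isChr_lin ψ) d hd
  · rintro d ⟨E, -, -, ψ, -, hd⟩
    exact h E _ (isChr_lin ψ) d hd
  · rintro ⟨hk, hu⟩ E χ hχ d hd
    obtain ⟨n, hn, h1⟩ := hmain E χ hχ d hd
    have h2 : Subgroup.closure (knownDefects c σ ∪ unramifiedDefects c σ m) ≤
        CommGroup.torsion ℂˣ := by
      rw [Subgroup.closure_le]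
      rintro x (hx | hx)
      · exact hk x hx
      · exact hu x hx
    have h3 : IsOfFinOrder (d ^ n) := h2 h1
    exact (isOfFinOrder_pow.mp h3).resolve_right hn.ne'

end Pool.Agent.K4H34.Old.UnramifiedReduction
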